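import Pool.Agent.Helper84_TMP.Stmt

/-!
# Module SUR: the Satake transform is surjective
-/

set_option autoImplicit false

open scoped BigOperators

namespace Pool.Agent.TMP.H10

open Pool.Agent.DEN

section
variable {r : ℕ} {C : Matrix (Fin r) (Fin r) ℤ} (hC : SimplyLaced C) {K : Type} [Field K]

variable (K) in
/-- The `K`-orbit of `t^l o`. -/
def orb (l : Fin r → ℤ) : Set (XX C K) := {y | ∃ g ∈ maxK C K, y = g • tp hC K l}

theorem orb_smul {l : Fin r → ℤ} {g : grp C K} (hg : g ∈ maxK C K) (y : XX C K) :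
    g • y ∈ orb hC K l ↔ y ∈ orb hC K l := by
  constructor
  · rintro ⟨h, hh, e⟩
    refine ⟨g⁻¹ * h, mul_mem (inv_mem hg) hh, ?_⟩
    rw [mul_smul, ← e, inv_smul_smul]
  · rintro ⟨h, hh, rfl⟩
    exact ⟨g * h, mul_mem hg hh, by rw [mul_smul]⟩

theorem orb_finite [Finite K] (hKF : DEN.TMP.KfinStmt) (l : Fin r → ℤ) :
    (orb hC K l).Finite := by
  refine (hKF r C hC K (tg hC K l)).subset ?_
  rintro y ⟨g, hg, rfl⟩
  refine ⟨g, hg, ?_⟩
  unfold tp
  rw [smul_pt]
  rfl

open Classical in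
/-- The kernel of the characteristic function of the `K`-orbit of `t^l o`. -/
noncomputable def kl (l : Fin r → ℤ) (x y : XX C K) : ℂ :=
  if ∃ g : grp C K, x = g • oo C K ∧ g⁻¹ • y ∈ orb hC K l then 1 else 0

theorem kl_of {l : Fin r → ℤ} (g : grp C K) (y : XX C K) :
    (∃ h : grp C K, g • oo C K = h • oo C K ∧ h⁻¹ • y ∈ orb hC K l) ↔
      g⁻¹ • y ∈ orb hC K l := by
  constructor
  · rintro ⟨h, e, hy⟩
    have h1 : g⁻¹ * h ∈ maxK C K := by
      rw [mem_maxK_iff, mul_smul, ← e, inv_smul_smul]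
    have h2 := (orb_smul hC h1 (h⁻¹ • y)).2 hy
    rwa [← mul_smul, mul_assoc, mul_inv_cancel, mul_one] at h2
  · intro h
    exact ⟨g, rfl, h⟩

theorem kl_smul {l : Fin r → ℤ} (g : grp C K) (y : XX C K) [Decidable (g⁻¹ • y ∈ orb hC K l)] :
    kl hC l (g • oo C K) y = if g⁻¹ • y ∈ orb hC K l then 1 else 0 := by
  unfold kl
  by_cases h : g⁻¹ • y ∈ orb hC K l
  · rw [if_pos h, if_pos ((kl_of hC g y).2 h)]
  · rw [if_neg h, if_neg (fun h' => h ((kl_of hC g y).1 h'))]

theorem kl_oo {l : Fin r → ℤ} (y : XX C K) [Decidable (y ∈ orb hC K l)] :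
    kl hC l (oo C K) y = if y ∈ orb hC K l then 1 else 0 := by
  classical
  have h := kl_smul hC (l := l) (1 : grp C K) y
  rw [one_smul] at h
  rw [h]
  simp only [inv_one, one_smul]

theorem kl_oo_ne {l : Fin r → ℤ} {y : XX C K} :
    kl hC l (oo C K) y ≠ 0 ↔ y ∈ orb hC K l := by
  classical
  rw [kl_oo]
  by_cases h : y ∈ orb hC K l
  · simp [h]
  · simp [h]

theorem kl_isKer [Finite K] (hKF : DEN.TMP.KfinStmt) (l : Fin r → ℤ) :
    IsKer (kl hC l : XX C K → XX C K → ℂ) where
  inv := by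
    classical
    intro g x y
    obtain ⟨h, rfl⟩ := exists_smul x
    rw [← mul_smul, kl_smul, kl_smul]
    have e : (g * h)⁻¹ • g • y = h⁻¹ • y := by
      rw [mul_inv_rev, mul_smul, inv_smul_smul]
    rw [e]
  fin := by
    classical
    intro x
    obtain ⟨h, rfl⟩ := exists_smul x
    refine ((orb_finite hC hKF l).image (fun y => h • y)).subset ?_
    intro y hy
    have hy' : kl hC l (h • oo C K) y ≠ 0 := hy
    rw [kl_smul] at hy'
    have h1 : h⁻¹ • y ∈ orb hC K l := by
      by_contra h2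
      rw [if_neg h2] at hy'
      exact hy' rfl
    exact ⟨h⁻¹ • y, h1, smul_inv_smul h y⟩

theorem self_orb (l : Fin r → ℤ) : tp hC K l ∈ orb hC K l := ⟨1, one_mem _, (one_smul _ _).symm⟩

theorem self_hor (l : Fin r → ℤ) : tp hC K l ∈ Hor hC K l := ⟨1, one_mem _, (one_smul _ _).symm⟩

theorem card_ne [Finite K] : (Nat.card K : ℂ) ≠ 0 := by
  have : Nat.card K ≠ 0 := Nat.card_pos.ne'
  exact_mod_cast this

theorem sat_kl_self [Finite K] (hKF : DEN.TMP.KfinStmt) (l : Fin r → ℤ) :
    sat hC (kl hC l : XX C K → XX C K → ℂ) l ≠ 0 := by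
  classical
  unfold sat
  refine mul_ne_zero (zpow_ne_zero _ card_ne) ?_
  unfold hsum
  have hT : (Hor hC K l ∩ orb hC K l).Finite := (orb_finite hC hKF l).subset (fun y hy => hy.2)
  have h1 : ∑ᶠ y ∈ Hor hC K l, kl hC l (oo C K) y =
      ∑ᶠ y ∈ Hor hC K l ∩ orb hC K l, kl hC l (oo C K) y := by
    apply finsum_mem_inter_support_eq
    ext y
    simp only [Set.mem_inter_iff, Function.mem_support, kl_oo_ne]
    tauto
  rw [h1, finsum_mem_eq_finite_toFinset_sum _ hT]
  have h2 : ∑ y ∈ hT.toFinset, kl hC l (oo C K) y = ∑ y ∈ hT.toFinset, (1 : ℂ) := by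
    apply Finset.sum_congr rfl
    intro y hy
    have h3 : y ∈ orb hC K l := (hT.mem_toFinset.1 hy).2
    rw [kl_oo, if_pos h3]
  rw [h2, Finset.sum_const, nsmul_eq_mul, mul_one]
  have h4 : 0 < hT.toFinset.card :=
    Finset.card_pos.2 ⟨tp hC K l, hT.mem_toFinset.2 ⟨self_hor hC l, self_orb hC l⟩⟩
  exact_mod_cast h4.ne'

theorem sat_kl_ne [Finite K] (hCat : CatStmt) (l m : Fin r → ℤ)
    (h : sat hC (kl hC l : XX C K → XX C K → ℂ) m ≠ 0) :
    ip C m m ≤ ip C l l ∧ (ip C m m = ip C l l → WR C l m) := by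
  have h1 : hsum hC (kl hC l : XX C K → XX C K → ℂ) m ≠ 0 := by
    intro h0
    apply h
    unfold sat
    rw [h0, mul_zero]
  unfold hsum at h1
  obtain ⟨y, hy, hy'⟩ := exists_ne_zero_of_finsum_mem_ne_zero h1
  obtain ⟨u, hu, e1⟩ := hy
  obtain ⟨k, hk, e2⟩ := (kl_oo_ne hC).1 hy'
  exact (hCat r C hC K).2.1 l m k hk u hu (e2.symm.trans e1)

theorem wr_inv {F : (Fin r → ℤ) → ℂ} (hF : ∀ i l, F (sf C i l) = F l) {l m : Fin r → ℤ}
    (h : WR C l m) : F m = F l := by
  induction h with
  | refl => rfl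
  | tail _ h2 ih =>
    obtain ⟨i, rfl⟩ := h2
    rw [hF, ih]

theorem sat_zero (l : Fin r → ℤ) : sat hC (0 : XX C K → XX C K → ℂ) l = 0 := by
  unfold sat hsum
  simp

theorem isKer_zero : IsKer (0 : XX C K → XX C K → ℂ) where
  inv := fun _ _ _ => rfl
  fin := fun x => by simp

variable (K) in
/-- the claim with bound `M` -/
def Claim (M : ℤ) : Prop :=
  ∀ F : (Fin r → ℤ) → ℂ, {l | F l ≠ 0}.Finite → (∀ i l, F (sf C i l) = F l) →
    (∀ l, F l ≠ 0 → ip C l l ≤ M) →
    ∃ k : XX C K → XX C K → ℂ, IsKer k ∧ (∀ l, sat hC k l = F l) ∧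
      ∀ y, k (oo C K) y ≠ 0 → ∃ g ∈ maxK C K, ∃ l : Fin r → ℤ, ip C l l ≤ M ∧ y = g • tp hC K l

include hC in
theorem ip_nonneg (l : Fin r → ℤ) : 0 ≤ ip C l l := by
  by_cases h : l = 0
  · rw [h, ip_zero_left]
  · exact (hC.ip_pos _ h).le

theorem claim_neg {M : ℤ} (hM : M < 0) : Claim hC K M := by
  intro F _ _ hs
  refine ⟨0, isKer_zero, ?_, ?_⟩
  · intro l
    rw [sat_zero]
    by_contra h
    have h1 := hs l (fun h0 => h h0.symm)
    have h2 := ip_nonneg hC l
    omega
  · intro y hy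
    exact absurd rfl hy

theorem claim_step [Finite K] (hKF : DEN.TMP.KfinStmt) (hWin : WinStmt) (hSmu : SmuStmt)
    (hCat : CatStmt) (hKer : KerStmt) {M : ℤ} (ih : Claim hC K (M - 1)) : Claim hC K M := by
  have key : ∀ (n : ℕ) (F : (Fin r → ℤ) → ℂ), {l | F l ≠ 0}.Finite →
      (∀ i l, F (sf C i l) = F l) → (∀ l, F l ≠ 0 → ip C l l ≤ M) →
      {l | F l ≠ 0 ∧ ip C l l = M}.ncard = n →
      ∃ k : XX C K → XX C K → ℂ, IsKer k ∧ (∀ l, sat hC k l = F l) ∧
        ∀ y, k (oo C K) y ≠ 0 →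
          ∃ g ∈ maxK C K, ∃ l : Fin r → ℤ, ip C l l ≤ M ∧ y = g • tp hC K l := by
    intro n
    induction n using Nat.strong_induction_on with
    | _ n ihn =>
      intro F hfin hinv hs hn
      have hS : {l | F l ≠ 0 ∧ ip C l l = M}.Finite := hfin.subset (fun l hl => hl.1)
      by_cases hemp : ∀ l, F l ≠ 0 → ip C l l ≠ M
      · obtain ⟨k, h1, h2, h3⟩ := ih F hfin hinv (fun l hl => by
          have a1 := hs l hl
          have a2 := hemp l hl
          omega)
        refine ⟨k, h1, h2, ?_⟩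
        intro y hy
        obtain ⟨g, hg, l, hl, e⟩ := h3 y hy
        exact ⟨g, hg, l, by omega, e⟩
      · push Not at hemp
        obtain ⟨l₀, hl₀, hM⟩ := hemp
        set c : ℂ := F l₀ / sat hC (kl hC l₀ : XX C K → XX C K → ℂ) l₀ with hc
        set G : (Fin r → ℤ) → ℂ :=
          fun l => F l - c * sat hC (kl hC l₀ : XX C K → XX C K → ℂ) l with hG
        have hker := kl_isKer hC hKF (K := K) l₀
        have hsinv : ∀ i l, sat hC (kl hC l₀ : XX C K → XX C K → ℂ) (sf C i l) =
            sat hC (kl hC l₀ : XX C K → XX C K → ℂ) l :=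
          fun i l => hWin r C hC K _ hker i l
        have hsfin := (hSmu r C hC K).1 _ hker
        have hself := sat_kl_self hC hKF (K := K) l₀
        have hGne : ∀ l, G l ≠ 0 →
            F l ≠ 0 ∨ sat hC (kl hC l₀ : XX C K → XX C K → ℂ) l ≠ 0 := by
          intro l hl
          by_contra h
          push Not at h
          apply hl
          rw [hG]
          simp only [h.1, h.2, mul_zero, sub_zero]
        have hGfin : {l | G l ≠ 0}.Finite := by
          refine (hfin.union hsfin).subset ?_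
          intro l hl
          exact hGne l hl
        have hGinv : ∀ i l, G (sf C i l) = G l := by
          intro i l
          rw [hG]
          simp only [hinv i l, hsinv i l]
        have hGs : ∀ l, G l ≠ 0 → ip C l l ≤ M := by
          intro l hl
          rcases hGne l hl with h | h
          · exact hs l h
          · have := (sat_kl_ne hC hCat l₀ l h).1
            omega
        have hG0 : G l₀ = 0 := by
          rw [hG]
          simp only
          rw [hc, div_mul_cancel₀ _ hself, sub_self]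
        have hGw : ∀ l, WR C l₀ l → G l = 0 := by
          intro l hl
          rw [wr_inv hGinv hl, hG0]
        have hsub : {l | G l ≠ 0 ∧ ip C l l = M} ⊆ {l | F l ≠ 0 ∧ ip C l l = M} := by
          rintro l ⟨h1, h2⟩
          refine ⟨?_, h2⟩
          rcases hGne l h1 with h | h
          · exact h
          · exact absurd (hGw l ((sat_kl_ne hC hCat l₀ l h).2 (by omega))) h1
        have hlt : {l | G l ≠ 0 ∧ ip C l l = M}.ncard < n := by
          rw [← hn]
          apply Set.ncard_lt_ncard _ hS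
          refine ⟨hsub, ?_⟩
          intro h
          have h1 := h (show l₀ ∈ {l | F l ≠ 0 ∧ ip C l l = M} from ⟨hl₀, hM⟩)
          exact h1.1 hG0
        obtain ⟨k, h1, h2, h3⟩ := ihn _ hlt G hGfin hGinv hGs rfl
        have hK := hKer r C hC K
        have hS' := hSmu r C hC K
        have hck : IsKer (c • (kl hC l₀ : XX C K → XX C K → ℂ)) := hK.2.2.2.2.1 c _ hker
        refine ⟨k + c • kl hC l₀, hK.2.2.2.1 k _ h1 hck, ?_, ?_⟩
        · intro l
          rw [hS'.2.2.1 k _ h1 hck l, hS'.2.2.2.1 c _ hker l, h2 l, hG]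
          simp only
          ring
        · intro y hy
          by_cases hky : k (oo C K) y = 0
          · have h4 : kl hC l₀ (oo C K) y ≠ 0 := by
              intro h0
              apply hy
              simp only [Pi.add_apply, Pi.smul_apply, hky, h0, smul_zero, add_zero]
            obtain ⟨g, hg, e⟩ := (kl_oo_ne hC).1 h4
            exact ⟨g, hg, l₀, hM.le, e⟩
          · exact h3 y hky
  intro F hfin hinv hs
  exact key _ F hfin hinv hs rfl

end

theorem sur (hKF : DEN.TMP.KfinStmt) (hWin : WinStmt) (hSmu : SmuStmt) (hCat : CatStmt)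
    (hKer : KerStmt) : SurStmt := by
  intro r C hC K _ _ F hfin hinv M hs
  have h1 : ∀ N : ℕ, Claim hC K ((N : ℤ) - 1) := by
    intro N
    induction N with
    | zero => exact claim_neg hC (by norm_num)
    | succ N ih =>
      have h2 := claim_step hC (K := K) hKF hWin hSmu hCat hKer (M := (N : ℤ)) ih
      have e : ((N + 1 : ℕ) : ℤ) - 1 = N := by push_cast; ring
      rw [e]
      exact h2
  by_cases hM : M < 0
  · exact claim_neg hC hM F hfin hinv hs
  · have h2 := h1 (M + 1).toNat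
    have e : (((M + 1).toNat : ℕ) : ℤ) - 1 = M := by omega
    rw [e] at h2
    exact h2 F hfin hinv hs

end Pool.Agent.TMP.H10
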